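import Mathlib
import Pool.Agent.H73.G.R8.Helper620.Wg.KI

/-!
Half periods of a lattice, and the passage to a lattice containing it with index two.
-/

set_option autoImplicit false

open Set Filter Topology MeasureTheory

namespace Pool.Agent.W520

/-- two independent half periods of a lattice -/
structure Halves (L : PeriodPair) (h₁ h₂ : ℂ) : Prop where
  d1 : 2 * h₁ ∈ L.lattice
  d2 : 2 * h₂ ∈ L.lattice
  n1 : h₁ ∉ L.lattice
  n2 : h₂ ∉ L.lattice
  n3 : h₁ + h₂ ∉ L.lattice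

namespace Halves

variable {L : PeriodPair} {h₁ h₂ : ℂ} (H : Halves L h₁ h₂)

include H

theorem symm : Halves L h₂ h₁ := ⟨H.d2, H.d1, H.n2, H.n1, by rw [add_comm]; exact H.n3⟩

theorem deriv_zero : L.derivWeierstrassP h₁ = 0 := by
  have h1 := L.derivWeierstrassP_sub_coe h₁ ⟨_, H.d1⟩
  have e : h₁ - 2 * h₁ = -h₁ := by ring
  simp only [e] at h1
  rw [L.derivWeierstrassP_neg] at h1
  linear_combination (-1 / 2 : ℂ) * h1

theorem ne12 : L.weierstrassP h₁ ≠ L.weierstrassP h₂ := by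
  intro h
  rcases Wg.wp_inj L h₁ h₂ H.n1 H.n2 h with h1 | h1
  · apply H.n3
    have := add_mem h1 H.d2
    have e : h₁ - h₂ + 2 * h₂ = h₁ + h₂ := by ring
    rwa [e] at this
  · exact H.n3 h1

theorem cubic1 : 4 * L.weierstrassP h₁ ^ 3 - L.g₂ * L.weierstrassP h₁ - L.g₃ = 0 := by
  rw [← L.derivWeierstrassP_sq h₁ H.n1, H.deriv_zero]
  ring

end Halves

end Pool.Agent.W520
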